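import Mathlib

set_option autoImplicit false

universe u

namespace Pool.Agent.Results.MP_ee7763_co.OrlinPerfect

open Finset

variable {V : Type u}

/-- `S` is a maximal stable set of `G`: it is stable and no stable set properly contains it. -/
def IsMaxStable (G : SimpleGraph V) (S : Finset V) : Prop :=
  G.IsIndepSet (S : Set V) ∧ ∀ T : Finset V, G.IsIndepSet (T : Set V) → S ⊆ T → T = S

/-- `G` is equistable: there are positive real weights such that a vertex set is a maximal
stable set if and only if its total weight is `1`. -/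
def IsEquistable (G : SimpleGraph V) : Prop :=
  ∃ φ : V → ℝ, (∀ v, 0 < φ v) ∧ ∀ S : Finset V, IsMaxStable G S ↔ ∑ v ∈ S, φ v = 1

/-- `G` is a general partition graph: it is the intersection graph of non-empty subsets `F x` of
a set `U` such that for every maximal stable set `S` the family `F x`, `x ∈ S`, is a partition
of `U` (every point of `U` lies in exactly one of these sets). -/
def IsGeneralPartition (G : SimpleGraph V) : Prop :=
  ∃ (U : Type u) (F : V → Set U), (∀ x, (F x).Nonempty) ∧
    (∀ x y, x ≠ y → (G.Adj x y ↔ (F x ∩ F y).Nonempty)) ∧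
    ∀ S : Finset V, IsMaxStable G S → ∀ p : U, ∃! x, x ∈ S ∧ p ∈ F x

/-- `G` is perfect: every induced subgraph has chromatic number equal to its clique number. -/
def IsPerfect (G : SimpleGraph V) : Prop :=
  ∀ s : Set V, (G.induce s).chromaticNumber = ((G.induce s).cliqueNum : ℕ∞)

/-- A clique and a stable set share at most one vertex. -/
lemma card_inter_le_one [DecidableEq V] (G : SimpleGraph V) {S K : Finset V}
    (hS : G.IsIndepSet (S : Set V)) (hK : G.IsClique (K : Set V)) : (S ∩ K).card ≤ 1 := by
  rw [Finset.card_le_one]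
  intro a ha b hb
  by_contra hab
  rw [Finset.mem_inter] at ha hb
  exact hS (by exact_mod_cast ha.1) (by exact_mod_cast hb.1) hab
    (hK (by exact_mod_cast ha.2) (by exact_mod_cast hb.2) hab)

/-- Weighted colouring of perfect graphs (a form of the replication lemma of Lovasz). -/
lemma weighted_colouring [Fintype V] [DecidableEq V] (G : SimpleGraph V) (hG : IsPerfect G) :
    ∀ (N : ℕ) (c : V → ℕ) (k : ℕ), ∑ v, c v = N →
      (∀ K : Finset V, G.IsClique (K : Set V) → ∑ v ∈ K, c v ≤ k) →
      ∃ S : Fin k → Finset V, (∀ i, G.IsIndepSet (S i : Set V)) ∧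
        ∀ v, c v ≤ ∑ i, if v ∈ S i then 1 else 0 := by
  intro N
  induction N using Nat.strong_induction_on with
  | _ N ih =>
  intro c k hN hk
  by_cases hall : ∀ v, c v ≤ 1
  · -- all weights are at most one: use perfection of the induced subgraph
    classical
    let s : Set V := {v | c v = 1}
    have hcl : (G.induce s).cliqueNum ≤ k := by
      obtain ⟨T, hT⟩ := (G.induce s).exists_isNClique_cliqueNum
      have hT2 : G.IsClique ((T.map (Function.Embedding.subtype _) : Finset V) : Set V) := by
        intro a ha b hb hab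
        simp only [Finset.coe_map, Function.Embedding.coe_subtype, Set.mem_image,
          Finset.mem_coe, Subtype.exists, exists_and_right, exists_eq_right] at ha hb
        obtain ⟨ha1, ha2⟩ := ha
        obtain ⟨hb1, hb2⟩ := hb
        have := hT.isClique (Finset.mem_coe.2 ha2) (Finset.mem_coe.2 hb2)
          (by intro h; exact hab (congrArg Subtype.val h))
        simpa using this
      have := hk _ hT2
      rw [Finset.sum_map] at this
      have h3 : ∑ x ∈ T, c ((Function.Embedding.subtype _) x) = T.card := by
        rw [Finset.card_eq_sum_ones]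
        apply Finset.sum_congr rfl
        intro x _
        exact x.2
      rw [h3, hT.card_eq] at this
      exact this
    have hcol : (G.induce s).Colorable k := by
      rw [← SimpleGraph.chromaticNumber_le_iff_colorable, hG s]
      exact_mod_cast hcl
    obtain ⟨f⟩ := hcol
    refine ⟨fun i => Finset.univ.filter (fun v => ∃ h : v ∈ s, f ⟨v, h⟩ = i), ?_, ?_⟩
    · intro i a ha b hb hab hadj
      simp only [Finset.coe_filter, Finset.mem_univ, true_and, Set.mem_ofPred_eq] at ha hb
      obtain ⟨ha1, ha2⟩ := ha
      obtain ⟨hb1, hb2⟩ := hb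
      have hadj' : (G.induce s).Adj ⟨a, ha1⟩ ⟨b, hb1⟩ := by simpa using hadj
      exact f.valid hadj' (ha2.trans hb2.symm)
    · intro v
      by_cases hv : c v = 1
      · have hvs : v ∈ s := hv
        have h1 : (1 : ℕ) = (if v ∈ (Finset.univ.filter
            (fun w => ∃ h : w ∈ s, f ⟨w, h⟩ = f ⟨v, hvs⟩)) then 1 else 0) := by
          rw [if_pos]
          simp [hvs]
        calc c v = 1 := hv
          _ = _ := h1
          _ ≤ _ := Finset.single_le_sum
            (f := fun i => if v ∈ (Finset.univ.filter
              (fun w => ∃ h : w ∈ s, f ⟨w, h⟩ = i)) then 1 else 0)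
            (fun i _ => Nat.zero_le _) (Finset.mem_univ (f ⟨v, hvs⟩))
      · have := hall v
        have : c v = 0 := by omega
        rw [this]
        exact Nat.zero_le _
  · push Not at hall
    obtain ⟨v, hv⟩ := hall
    -- remove one copy of `v`
    let c' : V → ℕ := fun w => if w = v then c w - 1 else c w
    have hc'le : ∀ w, c' w ≤ c w := by
      intro w
      simp only [c']
      split_ifs <;> omega
    have hlt' : ∑ w, c' w < ∑ w, c w := by
      apply Finset.sum_lt_sum (fun w _ => hc'le w)
      refine ⟨v, Finset.mem_univ _, ?_⟩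
      simp only [c', if_true]
      omega
    obtain ⟨S, hSind, hScov⟩ := ih (∑ w, c' w) (by omega) c' k rfl
      (fun K hK => (Finset.sum_le_sum (fun w _ => hc'le w)).trans (hk K hK))
    have hi0 : ∃ i0, v ∈ S i0 := by
      by_contra hcon
      push Not at hcon
      have h1 := hScov v
      rw [Finset.sum_eq_zero (fun i _ => if_neg (hcon i))] at h1
      simp only [c', if_true] at h1
      omega
    obtain ⟨i0, hi0⟩ := hi0
    let c'' : V → ℕ := fun w => if w ∈ S i0 then c w - 1 else c w
    have hc''le : ∀ w, c'' w ≤ c w := by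
      intro w
      simp only [c'']
      split_ifs <;> omega
    have hlt'' : ∑ w, c'' w < ∑ w, c w := by
      apply Finset.sum_lt_sum (fun w _ => hc''le w)
      refine ⟨v, Finset.mem_univ _, ?_⟩
      simp only [c'', if_pos hi0]
      omega
    obtain ⟨k', rfl⟩ : ∃ k', k = k' + 1 := by
      cases k with
      | zero => exact i0.elim0
      | succ k' => exact ⟨k', rfl⟩
    have hk'' : ∀ K : Finset V, G.IsClique (K : Set V) → ∑ w ∈ K, c'' w ≤ k' := by
      intro K hK
      by_cases hex : ∃ w ∈ K, w ∈ S i0 ∧ 1 ≤ c w
      · obtain ⟨w, hwK, hwS, hwc⟩ := hex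
        have h1 : ∑ w ∈ K, c'' w < ∑ w ∈ K, c w := by
          apply Finset.sum_lt_sum (fun w _ => hc''le w)
          refine ⟨w, hwK, ?_⟩
          simp only [c'', if_pos hwS]
          omega
        have h2 := hk K hK
        omega
      · push Not at hex
        have h1 : ∀ w ∈ K, c'' w ≤ ∑ i ∈ Finset.univ.erase i0, if w ∈ S i then 1 else 0 := by
          intro w hw
          by_cases hwS : w ∈ S i0
          · have := hex w hw hwS
            have h0 : c'' w = 0 := by
              have := hc''le w
              omega
            rw [h0]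
            exact Nat.zero_le _
          · have hwv : w ≠ v := by
              rintro rfl
              exact hwS hi0
            have h2 := hScov w
            rw [← Finset.add_sum_erase _ _ (Finset.mem_univ i0), if_neg hwS, zero_add] at h2
            have h3 : c'' w = c' w := by
              simp only [c'', c', if_neg hwS, if_neg hwv]
            rw [h3]
            exact h2
        calc ∑ w ∈ K, c'' w ≤ ∑ w ∈ K, ∑ i ∈ Finset.univ.erase i0, (if w ∈ S i then 1 else 0) :=
              Finset.sum_le_sum h1
          _ = ∑ i ∈ Finset.univ.erase i0, ∑ w ∈ K, (if w ∈ S i then 1 else 0) :=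
              Finset.sum_comm
          _ ≤ ∑ i ∈ Finset.univ.erase i0, 1 := by
              apply Finset.sum_le_sum
              intro i _
              rw [← Finset.card_filter, Finset.filter_mem_eq_inter, Finset.inter_comm]
              exact card_inter_le_one G (hSind i) hK
          _ = k' := by simp
    obtain ⟨T, hTind, hTcov⟩ := ih (∑ w, c'' w) (by omega) c'' k' rfl hk''
    refine ⟨Fin.cons (S i0) T, ?_, ?_⟩
    · intro i
      refine Fin.cases ?_ ?_ i
      · simpa using hSind i0
      · intro j
        simpa using hTind j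
    · intro w
      rw [Fin.sum_univ_succ]
      simp only [Fin.cons_zero, Fin.cons_succ]
      have h1 := hTcov w
      simp only [c''] at h1
      split_ifs at h1 ⊢ <;> omega

/-- Every stable set is contained in a maximal stable set. -/
lemma exists_maxStable [Fintype V] [DecidableEq V] (G : SimpleGraph V) {S : Finset V}
    (hS : G.IsIndepSet (S : Set V)) : ∃ T, IsMaxStable G T ∧ S ⊆ T := by
  classical
  obtain ⟨T, hST, hT⟩ := (Set.toFinite {T : Finset V | G.IsIndepSet (T : Set V)}).exists_le_maximal
    (a := S) hS
  refine ⟨T, ⟨hT.1, ?_⟩, hST⟩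
  intro T' hT' hTT'
  exact Finset.Subset.antisymm (hT.2 hT' hTT') hTT'

/-- A strong clique: a clique that meets every maximal stable set. -/
def IsStrongClique [DecidableEq V] (G : SimpleGraph V) (K : Finset V) : Prop :=
  G.IsClique (K : Set V) ∧ ∀ S : Finset V, IsMaxStable G S → (S ∩ K).Nonempty

/-- The counting vector of all maximal stable sets. -/
noncomputable def mult [Fintype V] [DecidableEq V] (G : SimpleGraph V) (v : V) : ℕ := by
  classical
  exact ∑ S ∈ Finset.univ.filter (fun S : Finset V => IsMaxStable G S), if v ∈ S then 1 else 0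

/-- The number of maximal stable sets. -/
noncomputable def numMax [Fintype V] [DecidableEq V] (G : SimpleGraph V) : ℕ := by
  classical
  exact (Finset.univ.filter (fun S : Finset V => IsMaxStable G S)).card

lemma sum_mult_clique [Fintype V] [DecidableEq V] (G : SimpleGraph V) (K : Finset V) :
    ∑ v ∈ K, mult G v = by
      classical
      exact ∑ S ∈ Finset.univ.filter (fun S : Finset V => IsMaxStable G S), (S ∩ K).card := by
  classical
  unfold mult
  rw [Finset.sum_comm]
  apply Finset.sum_congr rfl
  intro S _
  rw [← Finset.card_filter, Finset.filter_mem_eq_inter, Finset.inter_comm]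

lemma sum_mult_le [Fintype V] [DecidableEq V] (G : SimpleGraph V) {K : Finset V}
    (hK : G.IsClique (K : Set V)) : ∑ v ∈ K, mult G v ≤ numMax G := by
  classical
  rw [sum_mult_clique]
  unfold numMax
  rw [Finset.card_eq_sum_ones]
  apply Finset.sum_le_sum
  intro S hS
  exact card_inter_le_one G (Finset.mem_filter.1 hS).2.1 hK

lemma sum_mult_strong [Fintype V] [DecidableEq V] (G : SimpleGraph V) {K : Finset V}
    (hK : IsStrongClique G K) : ∑ v ∈ K, mult G v = numMax G := by
  classical
  rw [sum_mult_clique]
  unfold numMax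
  rw [Finset.card_eq_sum_ones]
  apply Finset.sum_congr rfl
  intro S hS
  have h1 := card_inter_le_one G (Finset.mem_filter.1 hS).2.1 hK.1
  have h2 := Finset.card_pos.2 (hK.2 S (Finset.mem_filter.1 hS).2)
  omega

lemma sum_mult_lt [Fintype V] [DecidableEq V] (G : SimpleGraph V) {K : Finset V}
    (hK : G.IsClique (K : Set V)) (hK2 : ¬ IsStrongClique G K) :
    ∑ v ∈ K, mult G v < numMax G := by
  classical
  have : ∃ S, IsMaxStable G S ∧ ¬ (S ∩ K).Nonempty := by
    by_contra hcon
    push Not at hcon
    exact hK2 ⟨hK, hcon⟩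
  obtain ⟨S, hS1, hS2⟩ := this
  rw [sum_mult_clique]
  unfold numMax
  rw [Finset.card_eq_sum_ones]
  apply Finset.sum_lt_sum
  · intro S hS
    exact card_inter_le_one G (Finset.mem_filter.1 hS).2.1 hK
  · refine ⟨S, by simp [hS1], ?_⟩
    rw [Finset.not_nonempty_iff_eq_empty] at hS2
    rw [hS2]
    simp

/-- The key construction: an integral combination of maximal stable sets. -/
lemma key [Fintype V] [DecidableEq V] (G : SimpleGraph V) (hG : IsPerfect G)
    (φ : V → ℝ) (hφ : ∀ S : Finset V, IsMaxStable G S → ∑ v ∈ S, φ v = 1)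
    (c : V → ℕ) (d : ℕ)
    (hc : ∀ K : Finset V, G.IsClique (K : Set V) →
      ∑ v ∈ K, (c v + mult G v) ≤ d + numMax G) :
    ∃ z : V → ℕ, (∀ v, c v ≤ z v) ∧ ∑ v, φ v * z v = d ∧
      ∀ K : Finset V, IsStrongClique G K → ∑ v ∈ K, z v = d := by
  classical
  obtain ⟨S, hS1, hS2⟩ := weighted_colouring G hG _ (fun v => c v + mult G v)
    (d + numMax G) rfl hc
  choose T hT1 hT2 using fun i => exists_maxStable G (hS1 i)
  have hcov : ∀ v, c v + mult G v ≤ ∑ i, if v ∈ T i then 1 else 0 := by
    intro v
    refine (hS2 v).trans (Finset.sum_le_sum fun i _ => ?_)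
    by_cases h : v ∈ S i
    · rw [if_pos h, if_pos (hT2 i h)]
    · rw [if_neg h]
      exact Nat.zero_le _
  refine ⟨fun v => (∑ i, if v ∈ T i then 1 else 0) - mult G v, ?_, ?_, ?_⟩
  · intro v
    have := hcov v
    simp only
    omega
  · have h1 : ∀ v, ((((∑ i, if v ∈ T i then 1 else 0) - mult G v : ℕ)) : ℝ) =
        (∑ i, if v ∈ T i then (1 : ℝ) else 0) - (mult G v : ℝ) := by
      intro v
      rw [Nat.cast_sub (by have := hcov v; omega)]
      push_cast
      rfl
    simp only [h1, mul_sub]
    rw [Finset.sum_sub_distrib]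
    have h2 : ∑ v, φ v * ∑ i, (if v ∈ T i then (1 : ℝ) else 0) = (d + numMax G : ℕ) := by
      simp only [Finset.mul_sum]
      rw [Finset.sum_comm]
      have : ∀ i : Fin (d + numMax G), ∑ v, φ v * (if v ∈ T i then (1 : ℝ) else 0) = 1 := by
        intro i
        simp only [mul_ite, mul_one, mul_zero]
        rw [Finset.sum_ite_mem, Finset.univ_inter]
        exact hφ _ (hT1 i)
      simp only [this]
      simp
    have h3 : ∑ v, φ v * (mult G v : ℝ) = (numMax G : ℕ) := by
      unfold mult numMax
      push_cast
      simp only [Finset.mul_sum]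
      rw [Finset.sum_comm]
      have : ∀ S ∈ Finset.univ.filter (fun S : Finset V => IsMaxStable G S),
          ∑ v, φ v * (if v ∈ S then (1 : ℝ) else 0) = 1 := by
        intro S hS
        simp only [mul_ite, mul_one, mul_zero]
        rw [Finset.sum_ite_mem, Finset.univ_inter]
        exact hφ _ (Finset.mem_filter.1 hS).2
      rw [Finset.sum_congr rfl this]
      simp
    rw [h2, h3]
    push_cast
    ring
  · intro K hK
    have h1 : ∑ v ∈ K, ((∑ i, if v ∈ T i then 1 else 0) - mult G v) + ∑ v ∈ K, mult G v =
        ∑ v ∈ K, ∑ i, if v ∈ T i then 1 else 0 := by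
      rw [← Finset.sum_add_distrib]
      apply Finset.sum_congr rfl
      intro v _
      have := hcov v
      omega
    have h2 : ∑ v ∈ K, ∑ i, (if v ∈ T i then 1 else 0) = d + numMax G := by
      rw [Finset.sum_comm]
      have : ∀ i : Fin (d + numMax G), ∑ v ∈ K, (if v ∈ T i then 1 else 0) = 1 := by
        intro i
        rw [← Finset.card_filter, Finset.filter_mem_eq_inter, Finset.inter_comm]
        have h3 := card_inter_le_one G (hT1 i).1 hK.1
        have h4 := Finset.card_pos.2 (hK.2 (T i) (hT1 i))
        omega
      simp only [this]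
      simp
    rw [h2, sum_mult_strong G hK] at h1
    change ∑ v ∈ K, ((∑ i, if v ∈ T i then 1 else 0) - mult G v) = d
    omega

/-- In a perfect equistable graph every vertex lies in a strong clique. -/
lemma vertex_strong [Fintype V] [DecidableEq V] (G : SimpleGraph V) (hG : IsPerfect G)
    (φ : V → ℝ) (hpos : ∀ v, 0 < φ v)
    (hφ : ∀ S : Finset V, IsMaxStable G S ↔ ∑ v ∈ S, φ v = 1) (w : V) :
    ∃ K, IsStrongClique G K ∧ w ∈ K := by
  classical
  by_contra hcon
  push Not at hcon
  obtain ⟨z, hz1, hz2, -⟩ := key G hG φ (fun S hS => (hφ S).1 hS)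
    (fun v => if v = w then 1 else 0) 0 (by
      intro K hK
      rw [Finset.sum_add_distrib, Finset.sum_ite_eq', zero_add]
      by_cases hw : w ∈ K
      · have := sum_mult_lt G hK (fun h => hcon K h hw)
        rw [if_pos hw]
        omega
      · have := sum_mult_le G hK
        rw [if_neg hw]
        omega)
  have h1 : φ w * z w ≤ ∑ v, φ v * z v :=
    Finset.single_le_sum (f := fun v => φ v * (z v : ℝ))
      (fun v _ => mul_nonneg (hpos v).le (Nat.cast_nonneg _)) (Finset.mem_univ w)
  have h2 := hz1 w
  rw [if_pos rfl] at h2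
  have h3 : (1 : ℝ) ≤ z w := by exact_mod_cast h2
  have h4 := hpos w
  rw [hz2] at h1
  push_cast at h1
  nlinarith

/-- In a perfect equistable graph every edge lies in a strong clique. -/
lemma edge_strong [Fintype V] [DecidableEq V] (G : SimpleGraph V) (hG : IsPerfect G)
    (φ : V → ℝ) (hpos : ∀ v, 0 < φ v)
    (hφ : ∀ S : Finset V, IsMaxStable G S ↔ ∑ v ∈ S, φ v = 1) (a b : V) (hab : G.Adj a b) :
    ∃ K, IsStrongClique G K ∧ a ∈ K ∧ b ∈ K := by
  classical
  by_contra hcon
  push Not at hcon
  have hne : a ≠ b := hab.ne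
  obtain ⟨z, hz1, hz2, hz3⟩ := key G hG φ (fun S hS => (hφ S).1 hS)
    (fun v => (if v = a then 1 else 0) + (if v = b then 1 else 0)) 1 (by
      intro K hK
      rw [Finset.sum_add_distrib, Finset.sum_add_distrib, Finset.sum_ite_eq',
        Finset.sum_ite_eq']
      by_cases hs : IsStrongClique G K
      · have h1 := sum_mult_strong G hs
        have h2 := hcon K hs
        by_cases ha : a ∈ K
        · have hb := h2 ha
          rw [if_pos ha, if_neg hb]
          omega
        · rw [if_neg ha]
          split_ifs <;> omega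
      · have h1 := sum_mult_lt G hK hs
        split_ifs <;> omega)
  have hz01 : ∀ v, z v ≤ 1 := by
    intro v
    obtain ⟨K, hK, hvK⟩ := vertex_strong G hG φ hpos hφ v
    calc z v ≤ ∑ x ∈ K, z x := Finset.single_le_sum (fun x _ => Nat.zero_le _) hvK
      _ = 1 := hz3 K hK
  have hsum : ∑ v ∈ Finset.univ.filter (fun v => z v = 1), φ v = 1 := by
    rw [Finset.sum_filter]
    have h5 : ∑ v, φ v * z v = (1 : ℝ) := by
      rw [hz2]; norm_num
    rw [← h5]
    apply Finset.sum_congr rfl
    intro v _
    have := hz01 v
    by_cases h1 : z v = 1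
    · rw [if_pos h1, h1]
      simp
    · have h0 : z v = 0 := by omega
      rw [if_neg h1, h0]
      simp
  have hmax := (hφ _).2 hsum
  have ha1 : z a = 1 := by
    have h1 := hz1 a
    have h2 := hz01 a
    simp only [if_true] at h1
    omega
  have hb1 : z b = 1 := by
    have h1 := hz1 b
    have h2 := hz01 b
    simp only [if_true] at h1
    omega
  exact hmax.1 (by simp [ha1]) (by simp [hb1]) hne hab

/-- **Orlin's conjecture holds for perfect graphs**: every finite perfect equistable graph is a
general partition graph. -/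
theorem result {V : Type u} [Finite V] (G : SimpleGraph V) (hperf : IsPerfect G)
    (heq : IsEquistable G) : IsGeneralPartition G := by
  classical
  have := Fintype.ofFinite V
  obtain ⟨φ, hpos, hφ⟩ := heq
  refine ⟨{K : Finset V // IsStrongClique G K}, fun x => {K | x ∈ K.1}, ?_, ?_, ?_⟩
  · intro x
    obtain ⟨K, hK, hx⟩ := vertex_strong G hperf φ hpos hφ x
    exact ⟨⟨K, hK⟩, hx⟩
  · intro x y hxy
    constructor
    · intro h
      obtain ⟨K, hK, hx, hy⟩ := edge_strong G hperf φ hpos hφ x y h
      exact ⟨⟨K, hK⟩, hx, hy⟩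
    · rintro ⟨K, hx, hy⟩
      exact K.2.1 (Finset.mem_coe.2 hx) (Finset.mem_coe.2 hy) hxy
  · intro S hS K
    have h1 := K.2.2 S hS
    obtain ⟨x, hx⟩ := h1
    rw [Finset.mem_inter] at hx
    refine ⟨x, hx, ?_⟩
    intro y hy
    by_contra hne
    exact hS.1 (Finset.mem_coe.2 hy.1) (Finset.mem_coe.2 hx.1) hne
      (K.2.1 (Finset.mem_coe.2 hy.2) (Finset.mem_coe.2 hx.2) hne)

end Pool.Agent.Results.MP_ee7763_co.OrlinPerfect
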